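import Mathlib

/-!
# MP_3191e9_an, project PC: geometry of tilings by bounded convex bodies in normed spaces

The lemmas `sep`, `flat_of_not_sing`, `ext`, `bdt` are adapted from the orphan project PC of an earlier
run (`N242/PC/Stm`, `N559/PC/SET`, `N664/PC/FLT`, `N216/PC/EXT`, `N402/PC/BDT`).
-/

set_option autoImplicit false

open Metric Set Filter Topology

namespace Pool.Agent.H919.PC

universe u

section defs

variable {X : Type u} [NormedAddCommGroup X] [NormedSpace ℝ X]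

/-- `𝒯` is a tiling by bounded convex bodies. -/
structure CTiling (𝒯 : Set (Set X)) : Prop where
  closed : ∀ T ∈ 𝒯, IsClosed T
  convex : ∀ T ∈ 𝒯, Convex ℝ T
  bdd : ∀ T ∈ 𝒯, Bornology.IsBounded T
  int : ∀ T ∈ 𝒯, (interior T).Nonempty
  cov : ⋃₀ 𝒯 = univ
  dis : 𝒯.Pairwise fun S T => Disjoint (interior S) (interior T)

/-- The point `x` is singular: every neighbourhood meets infinitely many tiles. -/
def SingT (𝒯 : Set (Set X)) (x : X) : Prop :=
  ∀ ρ > 0, {T | T ∈ 𝒯 ∧ (T ∩ ball x ρ).Nonempty}.Infinite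

/-- The set `T` is flat at `z` in finite codimension. -/
def Flat (T : Set X) (z : X) : Prop :=
  ∃ (F : Finset (X →L[ℝ] ℝ)) (ε : ℝ), 0 < ε ∧ ∀ v, (∀ f ∈ F, f v = 0) → ‖v‖ ≤ ε → z + v ∈ T

/-- The weak and the norm topology of `T` coincide at `y`. -/
def IsPC (T : Set X) (y : X) : Prop :=
  ∀ ε > 0, ∃ (F : Finset (X →L[ℝ] ℝ)) (η : ℝ), 0 < η ∧
    ∀ z ∈ T, (∀ f ∈ F, |f z - f y| < η) → ‖z - y‖ < ε

variable (X)

/-- Every nonempty closed bounded convex set has an extreme point. -/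
def KMP : Prop :=
  ∀ K : Set X, IsClosed K → Bornology.IsBounded K → Convex ℝ K → K.Nonempty →
    (K.extremePoints ℝ).Nonempty

end defs

section

variable {X : Type u} [NormedAddCommGroup X] [NormedSpace ℝ X]

/-- (SET) Two tiles are separated by a functional, strictly on the interiors. -/
theorem sep {𝒯 : Set (Set X)} (hT : CTiling 𝒯) {S : Set X} (hS : S ∈ 𝒯) {T : Set X} (hTT : T ∈ 𝒯)
    (hne : S ≠ T) : ∃ (f : X →L[ℝ] ℝ) (β : ℝ),
      (∀ x ∈ S, f x ≤ β) ∧ (∀ x ∈ T, β ≤ f x) ∧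
      (∀ x ∈ interior S, f x < β) ∧ (∀ x ∈ interior T, β < f x) := by
  have hdis : Disjoint (interior S) (interior T) := hT.dis hS hTT hne
  obtain ⟨f, β, h1, h2⟩ := geometric_hahn_banach_open_open (hT.convex S hS).interior isOpen_interior
    (hT.convex T hTT).interior isOpen_interior hdis
  refine ⟨f, β, ?_, ?_, h1, h2⟩
  · intro x hx
    have hx' : x ∈ closure (interior S) := by
      rw [(hT.convex S hS).closure_interior_eq_closure_of_nonempty_interior (hT.int S hS)]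
      exact subset_closure hx
    have hcl : IsClosed {y : X | f y ≤ β} := isClosed_le f.continuous continuous_const
    exact (hcl.closure_subset_iff.2 (fun y hy => (h1 y hy).le)) hx'
  · intro x hx
    have hx' : x ∈ closure (interior T) := by
      rw [(hT.convex T hTT).closure_interior_eq_closure_of_nonempty_interior (hT.int T hTT)]
      exact subset_closure hx
    have hcl : IsClosed {y : X | β ≤ f y} := isClosed_le continuous_const f.continuous
    exact (hcl.closure_subset_iff.2 (fun y hy => (h2 y hy).le)) hx'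

/-- (FLT) At a nonsingular point a tile is flat in finite codimension. -/
theorem flat_of_not_sing {𝒯 : Set (Set X)} (hB : CTiling 𝒯) {T : Set X} (hT : T ∈ 𝒯) {z : X}
    (hz : z ∈ T) (hS : ¬ SingT 𝒯 z) : Flat T z := by
  classical
  unfold SingT at hS
  push Not at hS
  obtain ⟨ρ, hρ, hN⟩ := hS
  obtain ⟨ρ', ⟨h1, h2⟩, h3⟩ : ∃ ρ' : ℝ, ((∀ T' ∈ {T | T ∈ 𝒯 ∧ (T ∩ ball z ρ).Nonempty},
      z ∉ T' → ¬ (T' ∩ ball z ρ').Nonempty) ∧ ρ' ≤ ρ) ∧ 0 < ρ' := by
    have e1 : ∀ᶠ ρ' in 𝓝[>] (0:ℝ), ∀ T' ∈ {T | T ∈ 𝒯 ∧ (T ∩ ball z ρ).Nonempty},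
        z ∉ T' → ¬ (T' ∩ ball z ρ').Nonempty := by
      rw [Filter.eventually_all_finite hN]
      intro T' hT'
      by_cases hzT : z ∈ T'
      · exact Eventually.of_forall fun r hr => absurd hzT hr
      · obtain ⟨r, hr, hr2⟩ := Metric.isOpen_iff.1 (hB.closed T' hT'.1).isOpen_compl z hzT
        filter_upwards [mem_nhdsWithin_of_mem_nhds (Iic_mem_nhds hr)] with s hs _
        rintro ⟨y, hy1, hy2⟩
        exact hr2 (ball_subset_ball hs hy2) hy1
    have e2 : ∀ᶠ ρ' in 𝓝[>] (0:ℝ), ρ' ≤ ρ := mem_nhdsWithin_of_mem_nhds (Iic_mem_nhds hρ)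
    exact ((e1.and e2).and self_mem_nhdsWithin).exists
  have hsep := fun T' (hT' : T' ∈ 𝒯) (hne : T ≠ T') => sep hB hT hT' hne
  choose! f β hf1 hf2 hf3 hf4 using hsep
  obtain ⟨c, hc⟩ := hB.int T hT
  refine ⟨hN.toFinset.image f, ρ' / 2, by positivity, fun v hv hvε => ?_⟩
  have key : ∀ s : ℝ, 0 < s → s * ‖c - z‖ < ρ' / 2 → z + v + s • (c - z) ∈ T := by
    intro s hs hs2
    obtain ⟨T'', hT'', hy⟩ : ∃ T'' ∈ 𝒯, z + v + s • (c - z) ∈ T'' := by
      have := hB.cov ▸ mem_univ (z + v + s • (c - z))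
      exact mem_sUnion.1 this
    have hyz : z + v + s • (c - z) ∈ ball z ρ' := by
      rw [mem_ball, dist_eq_norm]
      have e1 : z + v + s • (c - z) - z = v + s • (c - z) := by abel
      rw [e1]
      have e2 := norm_add_le v (s • (c - z))
      rw [norm_smul, Real.norm_of_nonneg hs.le] at e2
      linarith
    have hmem : T'' ∈ {T | T ∈ 𝒯 ∧ (T ∩ ball z ρ).Nonempty} :=
      ⟨hT'', _, hy, ball_subset_ball h2 hyz⟩
    have hz'' : z ∈ T'' := by
      by_contra hcon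
      exact h1 T'' hmem hcon ⟨_, hy, hyz⟩
    by_cases hne : T = T''
    · rw [← hne] at hy
      exact hy
    · exfalso
      have a1 := hf1 T'' hT'' hne z hz
      have a2 := hf2 T'' hT'' hne z hz''
      have a3 := hf2 T'' hT'' hne _ hy
      have a4 := hf3 T'' hT'' hne c hc
      have a5 : f T'' v = 0 := hv _ (Finset.mem_image_of_mem f (hN.mem_toFinset.2 hmem))
      rw [map_add, map_add, a5, map_smul, map_sub, smul_eq_mul] at a3
      have a6 : s * (f T'' c - f T'' z) < 0 := mul_neg_of_pos_of_neg hs (by linarith)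
      linarith
  have ht : Tendsto (fun s : ℝ => z + v + s • (c - z)) (𝓝[>] 0) (𝓝 (z + v)) := by
    have hc : Continuous fun s : ℝ => z + v + s • (c - z) := by fun_prop
    have e1 := hc.tendsto 0
    simp only [zero_smul, add_zero] at e1
    exact e1.mono_left nhdsWithin_le_nhds
  refine (hB.closed T hT).mem_of_tendsto ht ?_
  have hc2 : Tendsto (fun s : ℝ => s * ‖c - z‖) (𝓝[>] 0) (𝓝 0) := by
    have hc : Continuous fun s : ℝ => s * ‖c - z‖ := by fun_prop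
    have e1 := hc.tendsto 0
    simp only [zero_mul] at e1
    exact e1.mono_left nhdsWithin_le_nhds
  filter_upwards [self_mem_nhdsWithin, hc2.eventually_lt_const (by positivity : 0 < ρ' / 2)]
    with s hs hs2
  exact key s hs hs2

/-- a common zero of finitely many functionals -/
theorem exists_common_zero (h : ¬ FiniteDimensional ℝ X) (F : Finset (X →L[ℝ] ℝ)) :
    ∃ w : X, w ≠ 0 ∧ ∀ f ∈ F, f w = 0 := by
  by_contra hcon
  push Not at hcon
  apply h
  let Φ : X →ₗ[ℝ] (F → ℝ) := LinearMap.pi fun f => (f : X →L[ℝ] ℝ).toLinearMap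
  refine FiniteDimensional.of_injective Φ ?_
  rw [← LinearMap.ker_eq_bot, LinearMap.ker_eq_bot']
  intro w hw
  by_contra hw0
  obtain ⟨f, hf, hfw⟩ := hcon w hw0
  exact hfw (congrFun hw ⟨f, hf⟩)

/-- (EXT) A closed bounded convex set has a point with prescribed values of finitely many
functionals at which it is not flat. -/
theorem ext (hK : KMP X) (hX : ¬ FiniteDimensional ℝ X) {T : Set X} (hTc : IsClosed T)
    (hTb : Bornology.IsBounded T) (hTx : Convex ℝ T) {y : X} (hy : y ∈ T)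
    (F : Finset (X →L[ℝ] ℝ)) : ∃ z ∈ T, (∀ f ∈ F, f z = f y) ∧ ¬ Flat T z := by
  classical
  obtain ⟨K, hKd⟩ : ∃ K : Set X, K = T ∩ {z | ∀ f ∈ F, f z = f y} := ⟨_, rfl⟩
  have hmem : ∀ z, z ∈ K ↔ z ∈ T ∧ ∀ f ∈ F, f z = f y := by
    intro z
    rw [hKd, mem_inter_iff]
    rfl
  have h1 : IsClosed K := by
    rw [hKd]
    refine hTc.inter ?_
    have : {z : X | ∀ f ∈ F, f z = f y} = ⋂ f ∈ F, {z | f z = f y} := by
      ext z; simp
    rw [this]
    exact isClosed_biInter fun f _ => isClosed_eq f.continuous continuous_const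
  have h2 : Bornology.IsBounded K := by
    rw [hKd]
    exact hTb.subset inter_subset_left
  have h3 : Convex ℝ K := by
    rw [hKd]
    refine hTx.inter ?_
    intro x hx x' hx' a b _ _ hab f hf
    rw [map_add, map_smul, map_smul, hx f hf, hx' f hf, ← add_smul, hab, one_smul]
  have h4 : K.Nonempty := ⟨y, (hmem y).mpr ⟨hy, fun _ _ => rfl⟩⟩
  obtain ⟨z, hz⟩ := hK K h1 h2 h3 h4
  obtain ⟨hzK, hz2⟩ := mem_extremePoints.mp hz
  obtain ⟨hz3, hz4⟩ := (hmem z).mp hzK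
  refine ⟨z, hz3, hz4, ?_⟩
  rintro ⟨G, ε, hε, hcon⟩
  obtain ⟨w, hw0, hw⟩ := exists_common_zero hX (F ∪ G)
  have hwn : 0 < ‖w‖ := norm_pos_iff.mpr hw0
  obtain ⟨v, hv⟩ : ∃ v, v = (ε / ‖w‖) • w := ⟨_, rfl⟩
  have hvn : ‖v‖ = ε := by
    rw [hv, norm_smul, Real.norm_eq_abs, abs_of_pos (by positivity)]
    field_simp
  have hvF : ∀ f ∈ F ∪ G, f v = 0 := by
    intro f hf
    rw [hv, map_smul, hw f hf, smul_zero]
  have hp : z + v ∈ K := (hmem _).mpr ⟨hcon v (fun f hf => hvF f (Finset.mem_union_right _ hf))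
    hvn.le, fun f hf => by rw [map_add, hvF f (Finset.mem_union_left _ hf), add_zero, hz4 f hf]⟩
  have hm : z - v ∈ K := by
    refine (hmem _).mpr ⟨?_, fun f hf => by
      rw [map_sub, hvF f (Finset.mem_union_left _ hf), sub_zero, hz4 f hf]⟩
    have h5 := hcon (-v) (fun f hf => by
      rw [map_neg, hvF f (Finset.mem_union_right _ hf), neg_zero]) (by rw [norm_neg]; exact hvn.le)
    rwa [← sub_eq_add_neg] at h5
  have hseg : z ∈ openSegment ℝ (z + v) (z - v) :=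
    ⟨1 / 2, 1 / 2, by norm_num, by norm_num, by norm_num, by
      rw [smul_add, smul_sub]
      have : (1 / 2 : ℝ) • z + (1 / 2 : ℝ) • z = z := by
        rw [← add_smul]; norm_num
      rw [add_add_sub_cancel, this]⟩
  have h6 := (hz2 _ hp _ hm hseg).1
  have h7 : v = 0 := by
    have := add_eq_left.mp h6
    exact this
  rw [h7, norm_zero] at hvn
  exact hε.ne hvn

/-- a half ball is contained in the tile -/
theorem half {𝒯 : Set (Set X)} (hT : CTiling 𝒯) {T₀ T : Set X} (h0 : T₀ ∈ 𝒯)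
    (hT1 : T ∈ 𝒯) (hne : T₀ ≠ T) {x : X} {ρ d : ℝ} (hdρ : d ≤ ρ)
    (hbd : ∀ S ∈ 𝒯, ∀ y ∈ frontier S, ‖y - x‖ < ρ → y ∈ T₀) (hm : (T ∩ ball x d).Nonempty) :
    ∃ (f : X →L[ℝ] ℝ) (β : ℝ), ‖f‖ = 1 ∧ β - f x < d ∧
      ∀ z, ‖z - x‖ < ρ → β < f z → z ∈ interior T := by
  obtain ⟨g, γ, hg1, hg2, hg3, hg4⟩ := sep hT h0 hT1 hne
  have hg0 : g ≠ 0 := by
    rintro rfl
    obtain ⟨p, hp⟩ := hT.int T₀ h0
    obtain ⟨q, hq⟩ := hT.int T hT1
    have h1 := hg3 p hp
    have h2 := hg4 q hq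
    simp only [zero_apply] at h1 h2
    linarith
  have hn : 0 < ‖g‖ := norm_pos_iff.2 hg0
  obtain ⟨f, hf⟩ : ∃ f : X →L[ℝ] ℝ, f = ‖g‖⁻¹ • g := ⟨_, rfl⟩
  obtain ⟨β, hβ⟩ : ∃ β : ℝ, β = ‖g‖⁻¹ * γ := ⟨_, rfl⟩
  have hfz : ∀ z, f z = ‖g‖⁻¹ * g z := fun z => by rw [hf]; rfl
  have hi : 0 < ‖g‖⁻¹ := inv_pos.2 hn
  have hf1 : ‖f‖ = 1 := by
    rw [hf, norm_smul, norm_inv, norm_norm, inv_mul_cancel₀ hn.ne']
  have hT0' : ∀ z ∈ T₀, f z ≤ β := fun z hz => by
    rw [hfz, hβ]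
    exact mul_le_mul_of_nonneg_left (hg1 z hz) hi.le
  have hTi : ∀ z ∈ interior T, β < f z := fun z hz => by
    rw [hfz, hβ]
    exact mul_lt_mul_of_pos_left (hg4 z hz) hi
  -- a point of the interior
  obtain ⟨p, hpT, hpb⟩ : ∃ p, p ∈ interior T ∧ ‖p - x‖ < d := by
    obtain ⟨q, hqT, hqb⟩ := hm
    have h1 : q ∈ closure (interior T) := by
      rw [(hT.convex T hT1).closure_interior_eq_closure_of_nonempty_interior (hT.int T hT1)]
      exact subset_closure hqT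
    obtain ⟨p, hp1, hp2⟩ := mem_closure_iff.1 h1 (ball x d) isOpen_ball hqb
    exact ⟨p, hp2, by rw [← dist_eq_norm]; exact hp1⟩
  refine ⟨f, β, hf1, ?_, ?_⟩
  · have h1 := hTi p hpT
    have h2 : f p - f x ≤ ‖p - x‖ := by
      rw [← map_sub]
      refine (le_abs_self _).trans ?_
      rw [← Real.norm_eq_abs]
      have := f.le_opNorm (p - x)
      rwa [hf1, one_mul] at this
    linarith
  · intro z hz1 hz2
    obtain ⟨W, hW⟩ : ∃ W : Set X, W = ball x ρ ∩ {z | β < f z} := ⟨_, rfl⟩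
    have hWp : IsPreconnected W := by
      rw [hW]
      exact ((convex_ball x ρ).inter ((convex_Ioi β).is_linear_preimage f.toLinearMap.isLinear)).isPreconnected
    have hsub : W ⊆ interior T ∪ Tᶜ := by
      intro y hy
      rw [hW] at hy
      by_cases hyT : y ∈ T
      · left
        by_contra hyi
        have h1 : y ∈ frontier T := ⟨subset_closure hyT, hyi⟩
        have h2 := hbd T hT1 y h1 (by rw [← dist_eq_norm]; exact hy.1)
        have h3 := hT0' y h2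
        have h4 : β < f y := hy.2
        linarith
      · exact Or.inr hyT
    have hdis : Disjoint (interior T) Tᶜ :=
      (disjoint_compl_right (a := T)).mono_left interior_subset
    have hne' : (W ∩ interior T).Nonempty := by
      refine ⟨p, ?_, hpT⟩
      rw [hW]
      refine ⟨?_, hTi p hpT⟩
      rw [mem_ball, dist_eq_norm]
      linarith
    have := hWp.subset_left_of_subset_union isOpen_interior (hT.closed T hT1).isOpen_compl hdis hsub hne'
    apply this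
    rw [hW]
    exact ⟨by rw [mem_ball, dist_eq_norm]; exact hz1, hz2⟩

/-- almost norming vectors -/
theorem norming (f : X →L[ℝ] ℝ) (hf : ‖f‖ = 1) : ∃ v, ‖v‖ ≤ 1 ∧ 99 / 100 < f v := by
  obtain ⟨v, hv1, hv2⟩ := f.exists_lt_apply_of_lt_opNorm (r := 99 / 100) (by rw [hf]; norm_num)
  rw [Real.norm_eq_abs] at hv2
  rcases le_total 0 (f v) with h | h
  · rw [abs_of_nonneg h] at hv2
    exact ⟨v, hv1.le, hv2⟩
  · rw [abs_of_nonpos h] at hv2
    refine ⟨-v, by rw [norm_neg]; exact hv1.le, ?_⟩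
    rw [map_neg]
    exact hv2

theorem ap (f : X →L[ℝ] ℝ) (hf : ‖f‖ = 1) {v : X} (hv : ‖v‖ ≤ 1) : |f v| ≤ 1 := by
  rw [← Real.norm_eq_abs]
  have := f.le_opNorm v
  rw [hf, one_mul] at this
  exact this.trans hv

/-- two disjoint tiles: `f' v` is close to `-1` -/
theorem opposite {f f' : X →L[ℝ] ℝ} (hf : ‖f‖ = 1)
    (hdis : ∀ w, ‖w‖ ≤ 1 → 1 / 100 < f w → ¬ 1 / 100 < f' w) {v v' : X} (hv : ‖v‖ ≤ 1)
    (hv' : ‖v'‖ ≤ 1) (h1 : 99 / 100 < f v) (h2 : 99 / 100 < f' v') : f' v ≤ -(93 / 100) := by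
  have hw : ‖(51 / 100 : ℝ) • v + (49 / 100 : ℝ) • v'‖ ≤ 1 := by
    refine (norm_add_le _ _).trans ?_
    rw [norm_smul, norm_smul, Real.norm_of_nonneg (by norm_num), Real.norm_of_nonneg (by norm_num)]
    linarith
  have h3 := abs_le.1 (ap f hf hv')
  have h4 : 1 / 100 < f ((51 / 100 : ℝ) • v + (49 / 100 : ℝ) • v') := by
    rw [map_add, map_smul, map_smul, smul_eq_mul, smul_eq_mul]
    linarith [h3.1]
  have h5 := hdis _ hw h4
  rw [map_add, map_smul, map_smul, smul_eq_mul, smul_eq_mul] at h5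
  linarith

/-- (BDT) Near a singular point `x` of the tile `T₀` there is a boundary point of another tile
outside of `T₀`. -/
theorem bdt {𝒯 : Set (Set X)} (hT : CTiling 𝒯) {T₀ : Set X} (h0 : T₀ ∈ 𝒯) {x : X}
    (hs : SingT 𝒯 x) {ρ : ℝ} (hρ : 0 < ρ) :
    ∃ T ∈ 𝒯, ∃ y ∈ frontier T, ‖y - x‖ < ρ ∧ y ∉ T₀ := by
  by_contra hcon
  have hbd : ∀ S ∈ 𝒯, ∀ y ∈ frontier S, ‖y - x‖ < ρ → y ∈ T₀ := by
    intro S hS y hy hyx
    by_contra hy0
    exact hcon ⟨S, hS, y, hy, hyx, hy0⟩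
  have hd : 0 < ρ / 200 := by positivity
  have hinf := (hs (ρ / 200) hd).sdiff (Set.finite_singleton T₀)
  obtain ⟨F, hF, hF3⟩ := hinf.exists_subset_card_eq 3
  obtain ⟨T1, T2, T3, h12, h13, h23, rfl⟩ := Finset.card_eq_three.1 hF3
  have key : ∀ T ∈ ({T1, T2, T3} : Finset (Set X)), ∃ (f : X →L[ℝ] ℝ), ‖f‖ = 1 ∧
      ∀ w, ‖w‖ ≤ 1 → 1 / 100 < f w → x + (ρ / 2) • w ∈ interior T := by
    intro T hTF
    obtain ⟨⟨hT1, hT2⟩, hT3⟩ := hF hTF
    obtain ⟨f, β, hf1, hf2, hf3⟩ := half hT h0 hT1 (fun e => hT3 e.symm) (d := ρ / 200)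
      (by linarith) hbd hT2
    refine ⟨f, hf1, fun w hw hfw => hf3 _ ?_ ?_⟩
    · rw [add_sub_cancel_left, norm_smul, Real.norm_of_nonneg (by positivity)]
      nlinarith
    · rw [map_add, map_smul, smul_eq_mul]
      nlinarith
  have hmem : ∀ T ∈ ({T1, T2, T3} : Finset (Set X)), T ∈ 𝒯 := fun T hTF => (hF hTF).1.1
  have hdis : ∀ S ∈ ({T1, T2, T3} : Finset (Set X)), ∀ T ∈ ({T1, T2, T3} : Finset (Set X)), S ≠ T →
      ∀ z, z ∈ interior S → z ∉ interior T := fun S hS T hTT hne z hz hz' =>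
    (Set.disjoint_left.1 (hT.dis (hmem S hS) (hmem T hTT) hne)) hz hz'
  have m1 : T1 ∈ ({T1, T2, T3} : Finset (Set X)) := by simp
  have m2 : T2 ∈ ({T1, T2, T3} : Finset (Set X)) := by simp
  have m3 : T3 ∈ ({T1, T2, T3} : Finset (Set X)) := by simp
  obtain ⟨f1, hf1, k1⟩ := key T1 m1
  obtain ⟨f2, hf2, k2⟩ := key T2 m2
  obtain ⟨f3, hf3, k3⟩ := key T3 m3
  obtain ⟨v1, hv1, hw1⟩ := norming f1 hf1
  obtain ⟨v2, hv2, hw2⟩ := norming f2 hf2
  obtain ⟨v3, hv3, hw3⟩ := norming f3 hf3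
  have e2 := opposite hf1 (f' := f2)
    (fun w hw h1 h2 => hdis T1 m1 T2 m2 h12 _ (k1 w hw h1) (k2 w hw h2)) hv1 hv2 hw1 hw2
  have e3 := opposite hf1 (f' := f3)
    (fun w hw h1 h2 => hdis T1 m1 T3 m3 h13 _ (k1 w hw h1) (k3 w hw h2)) hv1 hv3 hw1 hw3
  have hn : ‖-v1‖ ≤ 1 := by rw [norm_neg]; exact hv1
  exact hdis T2 m2 T3 m3 h23 _ (k2 (-v1) hn (by rw [map_neg]; linarith))
    (k3 (-v1) hn (by rw [map_neg]; linarith))

omit [NormedSpace ℝ X] in
theorem singT_closed (𝒯 : Set (Set X)) : IsClosed {x | SingT 𝒯 x} := by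
  rw [← isOpen_compl_iff, Metric.isOpen_iff]
  intro x hx
  have hx' : ¬ SingT 𝒯 x := hx
  unfold SingT at hx'
  push Not at hx'
  obtain ⟨ρ, hρ, hf⟩ := hx'
  refine ⟨ρ / 2, by linarith, fun y hy hs => ?_⟩
  have hs' : SingT 𝒯 y := hs
  refine hs' (ρ / 2) (by linarith) (hf.subset ?_)
  rintro T ⟨hT, p, hpT, hp⟩
  refine ⟨hT, p, hpT, ?_⟩
  rw [mem_ball] at hy hp ⊢
  linarith [dist_triangle p y x]

/-- Points of weak-to-norm continuity of tiles are singular. -/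
theorem sing_of_pc (hK : KMP X) (hX : ¬ FiniteDimensional ℝ X) {𝒯 : Set (Set X)}
    (hT : CTiling 𝒯) {T : Set X} (hTT : T ∈ 𝒯) {y : X} (hy : y ∈ T) (hpc : IsPC T y) :
    SingT 𝒯 y := by
  have hcl := singT_closed 𝒯
  have : y ∈ closure {x | SingT 𝒯 x} := by
    rw [Metric.mem_closure_iff]
    intro ε hε
    obtain ⟨F, η, hη, h⟩ := hpc ε hε
    obtain ⟨z, hz, hzF, hzf⟩ := ext hK hX (hT.closed T hTT) (hT.bdd T hTT) (hT.convex T hTT) hy F
    refine ⟨z, ?_, ?_⟩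
    · by_contra hs
      exact hzf (flat_of_not_sing hT hTT hz hs)
    · rw [dist_comm, dist_eq_norm]
      exact h z hz fun f hf => by rw [hzF f hf, sub_self, abs_zero]; exact hη
  exact hcl.closure_subset this

end

end Pool.Agent.H919.PC
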