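import Mathlib
import Pool.Agent.H919.PC.Core

/-!
# MP_3191e9_an, project PC: weak topology of a Hilbert space
-/

set_option autoImplicit false

open Metric Set Filter Topology

namespace Pool.Agent.H919.PC

universe u

variable {H : Type u} [NormedAddCommGroup H] [InnerProductSpace ℝ H]

/-- The sequence `u` converges weakly to `y`. -/
def WeakTo (u : ℕ → H) (y : H) : Prop :=
  ∀ h : H, Tendsto (fun n => inner ℝ h (u n)) atTop (𝓝 (inner ℝ h y))

/-- `y` is a point of weak-to-norm (sequential) continuity of `K`. -/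
def PCPt (K : Set H) (y : H) : Prop :=
  y ∈ K ∧ ∀ u : ℕ → H, (∀ n, u n ∈ K) → WeakTo u y → Tendsto u atTop (𝓝 y)

theorem weakTo_of_dense {e : ℕ → H} (he : DenseRange e) {u : ℕ → H} {y : H} {M : ℝ}
    (hM : ∀ n, ‖u n - y‖ ≤ M)
    (hu : ∀ k, Tendsto (fun n => inner ℝ (e k) (u n)) atTop (𝓝 (inner ℝ (e k) y))) :
    WeakTo u y := by
  intro h
  rw [Metric.tendsto_atTop]
  intro ε hε
  have hM0 : 0 ≤ M := (norm_nonneg _).trans (hM 0)
  obtain ⟨k, hk⟩ := he.exists_dist_lt h (ε := ε / (2 * (M + 1))) (by positivity)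
  obtain ⟨N, hN⟩ := Metric.tendsto_atTop.1 (hu k) (ε / 2) (by positivity)
  refine ⟨N, fun n hn => ?_⟩
  have h1 := hN n hn
  rw [Real.dist_eq, ← inner_sub_right] at h1 ⊢
  have h2 : (inner ℝ h (u n - y) : ℝ) = inner ℝ (h - e k) (u n - y) + inner ℝ (e k) (u n - y) := by
    rw [← inner_add_left, sub_add_cancel]
  have h3 : |(inner ℝ (h - e k) (u n - y) : ℝ)| ≤ ε / (2 * (M + 1)) * M := by
    refine (abs_real_inner_le_norm _ _).trans ?_
    rw [dist_eq_norm] at hk
    exact mul_le_mul hk.le (hM n) (norm_nonneg _) (by positivity)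
  have h4 : ε / (2 * (M + 1)) * M ≤ ε / 2 := by
    rw [div_mul_eq_mul_div, div_le_div_iff₀ (by positivity) (by norm_num)]
    nlinarith
  rw [h2]
  calc _ ≤ |(inner ℝ (h - e k) (u n - y) : ℝ)| + |(inner ℝ (e k) (u n - y) : ℝ)| := abs_add_le _ _
    _ < ε := by linarith

theorem WeakTo.of_tendsto {u : ℕ → H} {y : H} (h : Tendsto u atTop (𝓝 y)) : WeakTo u y := by
  intro g
  exact ((continuous_const.inner continuous_id).tendsto y).comp h

theorem WeakTo.add {u v : ℕ → H} {y z : H} (h : WeakTo u y) (h' : WeakTo v z) :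
    WeakTo (fun n => u n + v n) (y + z) := by
  intro g
  simp only [inner_add_right]
  exact (h g).add (h' g)

theorem WeakTo.sub {u v : ℕ → H} {y z : H} (h : WeakTo u y) (h' : WeakTo v z) :
    WeakTo (fun n => u n - v n) (y - z) := by
  intro g
  simp only [inner_sub_right]
  exact (h g).sub (h' g)

theorem WeakTo.comp {u : ℕ → H} {y : H} (h : WeakTo u y) {φ : ℕ → ℕ} (hφ : StrictMono φ) :
    WeakTo (u ∘ φ) y := fun g => (h g).comp hφ.tendsto_atTop

variable [CompleteSpace H]

/-- The Riesz map into the weak dual. -/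
noncomputable def D (x : H) : WeakDual ℝ H := StrongDual.toWeakDual (InnerProductSpace.toDual ℝ H x)

/-- The inverse of the Riesz map. -/
noncomputable def E (φ : WeakDual ℝ H) : H :=
  (InnerProductSpace.toDual ℝ H).symm (WeakDual.toStrongDual φ)

theorem E_D (x : H) : E (D x) = x := by
  unfold E D
  exact (InnerProductSpace.toDual ℝ H).symm_apply_apply x

theorem D_E (φ : WeakDual ℝ H) : D (E φ) = φ := by
  unfold E D
  rw [LinearIsometryEquiv.apply_symm_apply]
  rfl

theorem D_apply (x h : H) : D x h = inner ℝ h x := by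
  rw [real_inner_comm]
  exact InnerProductSpace.toDual_apply_apply

theorem E_inner (φ : WeakDual ℝ H) (h : H) : inner ℝ h (E φ) = φ h := by
  rw [← D_apply, D_E]

theorem weakTo_iff (u : ℕ → H) (y : H) :
    WeakTo u y ↔ Tendsto (fun n => D (u n)) atTop (𝓝 (D y)) := by
  rw [tendsto_iff_forall_eval_tendsto_topDualPairing]
  unfold WeakTo
  refine forall_congr' fun h => ?_
  have : ∀ x : H, (topDualPairing ℝ H) (D x) h = inner ℝ h x := fun x => D_apply x h
  simp only [this]

theorem norm_E_sub (φ : WeakDual ℝ H) (x : H) :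
    ‖E φ - x‖ = ‖WeakDual.toStrongDual φ - InnerProductSpace.toDual ℝ H x‖ := by
  unfold E
  rw [← LinearIsometryEquiv.norm_map (InnerProductSpace.toDual ℝ H), map_sub,
    LinearIsometryEquiv.apply_symm_apply]

theorem isClosed_ball (x : H) (r : ℝ) : IsClosed {φ : WeakDual ℝ H | ‖E φ - x‖ ≤ r} := by
  have := WeakDual.isClosed_closedBall (𝕜 := ℝ) (InnerProductSpace.toDual ℝ H x) r
  convert this using 1
  ext φ
  rw [Set.mem_ofPred_eq, mem_preimage, mem_closedBall, dist_eq_norm, norm_E_sub]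

theorem isClosed_weak {K : Set H} (hc : IsClosed K) (hv : Convex ℝ K) :
    IsClosed {φ : WeakDual ℝ H | E φ ∈ K} := by
  rw [← isOpen_compl_iff, isOpen_iff_mem_nhds]
  intro φ₀ hφ₀
  have h0 : E φ₀ ∉ K := hφ₀
  obtain ⟨f, s, h1, h2⟩ := geometric_hahn_banach_closed_point hv hc h0
  obtain ⟨h, rfl⟩ := (InnerProductSpace.toDual ℝ H).surjective f
  have ho : IsOpen {φ : WeakDual ℝ H | s < φ h} := isOpen_lt continuous_const (WeakDual.eval_continuous h)
  refine Filter.mem_of_superset (ho.mem_nhds ?_) ?_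
  · show s < φ₀ h
    rw [← E_inner]
    exact h2
  · intro φ hφ hφK
    have h3 : InnerProductSpace.toDual ℝ H h (E φ) < s := h1 _ hφK
    have h4 : (InnerProductSpace.toDual ℝ H h (E φ) : ℝ) = φ h := by
      rw [← E_inner]
      exact InnerProductSpace.toDual_apply_apply
    have h5 : s < φ h := hφ
    linarith

theorem isBounded_weak {K : Set H} (hb : Bornology.IsBounded K) :
    Bornology.IsBounded {φ : WeakDual ℝ H | E φ ∈ K} := by
  obtain ⟨R, hR⟩ := (Metric.isBounded_iff_subset_closedBall (0 : H)).1 hb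
  refine (WeakDual.isBounded_closedBall (𝕜 := ℝ) (0 : StrongDual ℝ H) R).subset ?_
  intro φ hφ
  have h1 := hR hφ
  rw [mem_closedBall, dist_zero_right] at h1
  rw [mem_preimage, mem_closedBall, dist_zero_right]
  unfold E at h1
  rwa [LinearIsometryEquiv.norm_map] at h1

theorem isCompact_weak {K : Set H} (hc : IsClosed K) (hv : Convex ℝ K)
    (hb : Bornology.IsBounded K) : IsCompact {φ : WeakDual ℝ H | E φ ∈ K} :=
  WeakDual.isCompact_of_bounded_of_closed (isBounded_weak hb) (isClosed_weak hc hv)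

/-- Hilbert spaces have the property `KMP`. -/
theorem kmp : KMP H := by
  intro K hc hb hv hne
  obtain ⟨x₀, hx₀⟩ := hne
  have : LocallyConvexSpace ℝ (WeakDual ℝ H) :=
    inferInstanceAs (LocallyConvexSpace ℝ (WeakBilin (topDualPairing ℝ H)))
  obtain ⟨φ, hφ⟩ := (isCompact_weak hc hv hb).extremePoints_nonempty
    ⟨D x₀, by rw [Set.mem_ofPred_eq, E_D]; exact hx₀⟩
  obtain ⟨hφ1, hφ2⟩ := mem_extremePoints.1 hφ
  refine ⟨E φ, mem_extremePoints.2 ⟨hφ1, fun x hx y hy hxy => ?_⟩⟩
  have h1 : φ ∈ openSegment ℝ (D x) (D y) := by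
    obtain ⟨a, b, ha, hb, hab, h2⟩ := hxy
    refine ⟨a, b, ha, hb, hab, ?_⟩
    rw [← D_E φ, ← h2]
    refine DFunLike.ext _ _ fun h => ?_
    show a * D x h + b * D y h = D (a • x + b • y) h
    rw [D_apply, D_apply, D_apply, inner_add_right, inner_smul_right, inner_smul_right]
  have h2 := hφ2 (D x) (by rw [Set.mem_ofPred_eq, E_D]; exact hx) (D y)
    (by rw [Set.mem_ofPred_eq, E_D]; exact hy) h1
  exact ⟨by rw [← h2.1, E_D], by rw [← h2.2, E_D]⟩

/-- Closed convex sets are weakly sequentially closed. -/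
theorem mem_of_weakTo {K : Set H} (hc : IsClosed K) (hv : Convex ℝ K) {u : ℕ → H} {y : H}
    (hu : ∀ n, u n ∈ K) (h : WeakTo u y) : y ∈ K := by
  have h1 := (weakTo_iff u y).1 h
  have h2 := (isClosed_weak hc hv).mem_of_tendsto h1
    (Eventually.of_forall fun n => by rw [Set.mem_ofPred_eq, E_D]; exact hu n)
  rwa [Set.mem_ofPred_eq, E_D] at h2

variable [TopologicalSpace.SeparableSpace H]

/-- Bounded sequences have weakly convergent subsequences. -/
theorem exists_weakTo {u : ℕ → H} {R : ℝ} (hu : ∀ n, ‖u n‖ ≤ R) :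
    ∃ (y : H) (φ : ℕ → ℕ), StrictMono φ ∧ WeakTo (u ∘ φ) y := by
  have hs := WeakDual.isSeqCompact_closedBall ℝ H (0 : StrongDual ℝ H) R
  obtain ⟨ψ, -, φ, hφ, hlim⟩ := hs (x := fun n => D (u n)) (fun n => by
    rw [mem_preimage, mem_closedBall, dist_zero_right]
    show ‖InnerProductSpace.toDual ℝ H (u n)‖ ≤ R
    rw [LinearIsometryEquiv.norm_map]
    exact hu n)
  refine ⟨E ψ, φ, hφ, ?_⟩
  rw [weakTo_iff, D_E]
  exact hlim

omit [TopologicalSpace.SeparableSpace H] in
theorem D_continuous : Continuous (D : H → WeakDual ℝ H) := by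
  refine WeakDual.continuous_of_continuous_eval fun h => ?_
  simp only [D_apply]
  exact continuous_const.inner continuous_id

/-- The points of weak-to-norm continuity are weakly dense, and they may be chosen in countably many
open half spaces that contain the interior. -/
theorem pc_dense' {K : Set H} (hc : IsClosed K) (hv : Convex ℝ K) (hb : Bornology.IsBounded K)
    (hi : (interior K).Nonempty) {ι : Type*} [Countable ι] (g : ι → H) (β : ι → ℝ)
    (hg : ∀ i, ∀ x ∈ interior K, inner ℝ (g i) x < β i)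
    {y : H} (hy : y ∈ K) (F : Finset H) {η : ℝ} (hη : 0 < η) :
    ∃ z, PCPt K z ∧ (∀ i, inner ℝ (g i) z < β i) ∧
      ∀ h ∈ F, |(inner ℝ h z : ℝ) - inner ℝ h y| < η := by
  obtain ⟨S, hS⟩ : ∃ S : Set (WeakDual ℝ H), S = {φ | E φ ∈ K} := ⟨_, rfl⟩
  have hmem : ∀ φ, φ ∈ S ↔ E φ ∈ K := fun φ => by rw [hS, Set.mem_ofPred_eq]
  have hcS : IsCompact S := by rw [hS]; exact isCompact_weak hc hv hb
  have : CompactSpace S := isCompact_iff_compactSpace.mp hcS
  obtain ⟨d, hd⟩ := TopologicalSpace.exists_dense_seq H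
  obtain ⟨B, hB⟩ : ∃ B : ℕ → ℕ → Set S, B = fun (n : ℕ) (k : ℕ) =>
    {φ : S | ‖E (φ : WeakDual ℝ H) - d k‖ ≤ 1 / ((n : ℝ) + 1)} := ⟨_, rfl⟩
  have hBc : ∀ n k, IsClosed (B n k) := fun n k => by
    rw [hB]
    exact (isClosed_ball (d k) _).preimage continuous_subtype_val
  have hG : ∀ n, Dense (⋃ k, interior (B n k)) := fun n =>
    dense_iUnion_interior_of_closed (hBc n) (by
      rw [Set.eq_univ_iff_forall]
      intro φ
      obtain ⟨k, hk⟩ := hd.exists_dist_lt (E (φ : WeakDual ℝ H)) (ε := 1 / ((n : ℝ) + 1))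
        (by positivity)
      refine mem_iUnion.2 ⟨k, ?_⟩
      rw [hB]
      rw [dist_eq_norm] at hk
      exact hk.le)
  obtain ⟨O, hO⟩ : ∃ O : ι → Set S, O = fun i => {φ : S | (φ : WeakDual ℝ H) (g i) < β i} :=
    ⟨_, rfl⟩
  have hOo : ∀ i, IsOpen (O i) := fun i => by
    rw [hO]
    exact isOpen_lt ((WeakDual.eval_continuous (g i)).comp continuous_subtype_val) continuous_const
  have hOd : ∀ i, Dense (O i) := fun i => by
    rw [dense_iff_inter_open]
    intro U hU ⟨φ, hφ⟩
    obtain ⟨U', hU', rfl⟩ := isOpen_induced_iff.1 hU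
    have h1 : E (φ : WeakDual ℝ H) ∈ closure (interior K) := by
      rw [hv.closure_interior_eq_closure_of_nonempty_interior hi]
      exact subset_closure ((hmem _).1 φ.2)
    obtain ⟨x, hx1, hx2⟩ := mem_closure_iff.1 h1 (D ⁻¹' U') (hU'.preimage D_continuous) (by
      rw [mem_preimage, D_E]
      exact hφ)
    refine ⟨⟨D x, by rw [hmem, E_D]; exact interior_subset hx2⟩, hx1, ?_⟩
    rw [hO]
    show D x (g i) < β i
    rw [D_apply]
    exact hg i x hx2
  have hdense : Dense (⋂ j : ℕ ⊕ ι, Sum.elim (fun n => ⋃ k, interior (B n k)) O j) := by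
    refine dense_iInter_of_isOpen ?_ ?_
    · rintro (n | i)
      · exact isOpen_iUnion fun k => isOpen_interior
      · exact hOo i
    · rintro (n | i)
      · exact hG n
      · exact hOd i
  obtain ⟨U, hU⟩ : ∃ U : Set S, U = ⋂ h ∈ F,
    {φ : S | |(φ : WeakDual ℝ H) h - inner ℝ h y| < η} := ⟨_, rfl⟩
  have hUo : IsOpen U := by
    rw [hU]
    refine isOpen_biInter_finset fun h _ => ?_
    refine isOpen_lt (continuous_abs.comp ?_) continuous_const
    exact ((WeakDual.eval_continuous h).comp continuous_subtype_val).sub continuous_const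
  have hUmem : ∀ φ : S, φ ∈ U ↔ ∀ h ∈ F, |(φ : WeakDual ℝ H) h - inner ℝ h y| < η := fun φ => by
    rw [hU]
    simp
  have hUn : U.Nonempty := by
    refine ⟨⟨D y, by rw [hmem, E_D]; exact hy⟩, ?_⟩
    rw [hUmem]
    intro h _
    rw [D_apply, sub_self, abs_zero]
    exact hη
  obtain ⟨φ, hφU, hφ⟩ := hdense.inter_open_nonempty U hUo hUn
  refine ⟨E (φ : WeakDual ℝ H), ⟨(hmem _).1 φ.2, fun u hu hw => ?_⟩, fun i => ?_, fun h hh => ?_⟩
  · rw [weakTo_iff, D_E] at hw
    have hw' : Tendsto (fun n => (⟨D (u n), by rw [hmem, E_D]; exact hu n⟩ : S)) atTop (𝓝 φ) := by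
      rw [tendsto_subtype_rng]
      exact hw
    rw [Metric.tendsto_atTop]
    intro ε hε
    obtain ⟨n, hn⟩ := exists_nat_one_div_lt (K := ℝ) (ε := ε / 2) (by positivity)
    have hφn : φ ∈ ⋃ k, interior (B n k) := mem_iInter.1 hφ (Sum.inl n)
    obtain ⟨k, hk⟩ := mem_iUnion.1 hφn
    have h1 := hw'.eventually (isOpen_interior.mem_nhds hk)
    obtain ⟨N, hN⟩ := eventually_atTop.1 h1
    refine ⟨N, fun m hm => ?_⟩
    have h2 : _ ∈ B n k := interior_subset (hN m hm)
    have h3 : φ ∈ B n k := interior_subset hk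
    rw [hB] at h2 h3
    have h2' : ‖E (D (u m)) - d k‖ ≤ 1 / ((n : ℝ) + 1) := h2
    have h3' : ‖E (φ : WeakDual ℝ H) - d k‖ ≤ 1 / ((n : ℝ) + 1) := h3
    rw [E_D] at h2'
    rw [dist_eq_norm]
    have h4 : u m - E (φ : WeakDual ℝ H) = (u m - d k) - (E (φ : WeakDual ℝ H) - d k) := by abel
    rw [h4]
    have h5 := norm_sub_le (u m - d k) (E (φ : WeakDual ℝ H) - d k)
    linarith
  · have hφi : φ ∈ O i := mem_iInter.1 hφ (Sum.inr i)
    rw [hO] at hφi
    rw [E_inner]
    exact hφi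
  · rw [E_inner]
    exact (hUmem φ).1 hφU h hh

/-- The points of weak-to-norm continuity are weakly dense. -/
theorem pc_dense {K : Set H} (hc : IsClosed K) (hv : Convex ℝ K) (hb : Bornology.IsBounded K)
    (hi : (interior K).Nonempty) {y : H} (hy : y ∈ K) (F : Finset H) {η : ℝ} (hη : 0 < η) :
    ∃ z, PCPt K z ∧ ∀ h ∈ F, |(inner ℝ h z : ℝ) - inner ℝ h y| < η := by
  obtain ⟨z, hz, -, hzF⟩ := pc_dense' hc hv hb hi (ι := Empty) (fun i => i.elim) (fun i => i.elim)
    (fun i => i.elim) hy F hη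
  exact ⟨z, hz, hzF⟩

/-- Sequential points of continuity are points of continuity. -/
theorem PCPt.isPC {K : Set H} (hb : Bornology.IsBounded K) {y : H} (hy : PCPt K y) : IsPC K y := by
  classical
  by_contra hcon
  unfold IsPC at hcon
  push Not at hcon
  obtain ⟨ε, hε, hcon⟩ := hcon
  obtain ⟨e, he⟩ := TopologicalSpace.exists_dense_seq H
  have h1 : ∀ n : ℕ, ∃ z ∈ K, (∀ k ≤ n, |(inner ℝ (e k) z : ℝ) - inner ℝ (e k) y| <
      1 / ((n : ℝ) + 1)) ∧ ε ≤ ‖z - y‖ := by
    intro n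
    obtain ⟨z, hz, hz1, hz2⟩ := hcon
      ((Finset.range (n + 1)).image fun k => InnerProductSpace.toDual ℝ H (e k))
      (1 / ((n : ℝ) + 1)) (by positivity)
    refine ⟨z, hz, fun k hk => ?_, hz2⟩
    have := hz1 (InnerProductSpace.toDual ℝ H (e k))
      (Finset.mem_image_of_mem _ (Finset.mem_range.2 (by omega)))
    rwa [InnerProductSpace.toDual_apply_apply, InnerProductSpace.toDual_apply_apply] at this
  choose u hu1 hu2 hu3 using h1
  obtain ⟨R, hR⟩ := (Metric.isBounded_iff_subset_closedBall y).1 hb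
  have hw : WeakTo u y := by
    refine weakTo_of_dense he (M := R) (fun n => ?_) fun k => ?_
    · have := hR (hu1 n)
      rwa [mem_closedBall, dist_eq_norm] at this
    · rw [Metric.tendsto_atTop]
      intro δ hδ
      obtain ⟨N, hN⟩ := exists_nat_one_div_lt (K := ℝ) hδ
      refine ⟨max N k, fun n hn => ?_⟩
      rw [Real.dist_eq]
      refine (hu2 n k ((le_max_right _ _).trans hn)).trans ?_
      refine lt_of_le_of_lt ?_ hN
      have : (N : ℝ) ≤ n := by exact_mod_cast (le_max_left _ _).trans hn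
      exact one_div_le_one_div_of_le (by positivity) (by linarith)
  have h2 := hy.2 u hu1 hw
  obtain ⟨N, hN⟩ := Metric.tendsto_atTop.1 h2 ε hε
  have h3 := hN N le_rfl
  rw [dist_eq_norm] at h3
  linarith [hu3 N]

end Pool.Agent.H919.PC
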