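import Mathlib
import Pool.Agent.H919.PC.Weak

/-!
# MP_3191e9_an, project PC: the main arguments
-/

set_option autoImplicit false

open Metric Set Filter Topology

namespace Pool.Agent.H919.PC

universe u

variable {H : Type u} [NormedAddCommGroup H] [InnerProductSpace ℝ H] [CompleteSpace H]
  [TopologicalSpace.SeparableSpace H]

/-- The set of the points of weak-to-norm continuity of the tiles. -/
def PP (𝒯 : Set (Set H)) : Set H := {x | ∃ T ∈ 𝒯, PCPt T x}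

/-- A tile has points of continuity outside of any other tile near each of its points of
continuity. -/
theorem escape {𝒯 : Set (Set H)} (hT : CTiling 𝒯) {T₀ T₁ : Set H} (h0 : T₀ ∈ 𝒯) (h1 : T₁ ∈ 𝒯)
    (hne : T₀ ≠ T₁) {q : H} (hq : PCPt T₁ q) {ρ : ℝ} (hρ : 0 < ρ) :
    ∃ z, PCPt T₁ z ∧ ‖z - q‖ < ρ ∧ z ∉ T₀ := by
  classical
  obtain ⟨f, β, hf1, hf2, hf3, hf4⟩ := sep hT h0 h1 hne
  obtain ⟨h, rfl⟩ := (InnerProductSpace.toDual ℝ H).surjective f
  have hfe : ∀ x, (InnerProductSpace.toDual ℝ H h) x = inner ℝ h x := fun x =>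
    InnerProductSpace.toDual_apply_apply
  simp only [hfe] at hf1 hf2 hf3 hf4
  obtain ⟨e, he⟩ := TopologicalSpace.exists_dense_seq H
  have hcl : q ∈ closure (interior T₁) := by
    rw [(hT.convex T₁ h1).closure_interior_eq_closure_of_nonempty_interior (hT.int T₁ h1)]
    exact subset_closure hq.1
  have hstep : ∀ n : ℕ, ∃ y z, ‖y - q‖ < 1 / ((n : ℝ) + 1) ∧ PCPt T₁ z ∧ z ∉ T₀ ∧
      ∀ k ≤ n, |(inner ℝ (e k) z : ℝ) - inner ℝ (e k) y| < 1 / ((n : ℝ) + 1) := by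
    intro n
    obtain ⟨y, hy, hyq⟩ := Metric.mem_closure_iff.1 hcl (1 / ((n : ℝ) + 1)) (by positivity)
    have hyβ := hf4 y hy
    obtain ⟨z, hz, hzF⟩ := pc_dense (hT.closed T₁ h1) (hT.convex T₁ h1) (hT.bdd T₁ h1)
      (hT.int T₁ h1) (interior_subset hy) (insert h ((Finset.range (n + 1)).image e))
      (η := min (1 / ((n : ℝ) + 1)) (inner ℝ h y - β)) (lt_min (by positivity) (by linarith))
    refine ⟨y, z, by rwa [dist_comm, dist_eq_norm] at hyq, hz, fun hz0 => ?_, fun k hk => ?_⟩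
    · have h2 := hzF h (Finset.mem_insert_self _ _)
      have h3 := (abs_lt.1 (h2.trans_le (min_le_right _ _))).1
      have h4 := hf1 z hz0
      linarith
    · exact (hzF (e k) (Finset.mem_insert_of_mem (Finset.mem_image_of_mem _
        (Finset.mem_range.2 (by omega))))).trans_le (min_le_left _ _)
  choose y z hy hz hz0 hyz using hstep
  obtain ⟨R, hR⟩ := (Metric.isBounded_iff_subset_closedBall q).1 (hT.bdd T₁ h1)
  have hlim : Tendsto (fun n : ℕ => 1 / ((n : ℝ) + 1)) atTop (𝓝 0) :=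
    tendsto_one_div_add_atTop_nhds_zero_nat
  have hyq : Tendsto y atTop (𝓝 q) := by
    rw [tendsto_iff_norm_sub_tendsto_zero]
    exact squeeze_zero (fun n => norm_nonneg _) (fun n => (hy n).le) hlim
  have hw : WeakTo z q := by
    refine weakTo_of_dense he (M := R) (fun n => ?_) fun k => ?_
    · have := hR (hz n).1
      rwa [mem_closedBall, dist_eq_norm] at this
    · have h2 : Tendsto (fun n => (inner ℝ (e k) (y n) : ℝ)) atTop (𝓝 (inner ℝ (e k) q)) :=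
        WeakTo.of_tendsto hyq (e k)
      have h3 : Tendsto (fun n => (inner ℝ (e k) (z n) : ℝ) - inner ℝ (e k) (y n)) atTop (𝓝 0) := by
        refine squeeze_zero_norm' ?_ hlim
        filter_upwards [eventually_ge_atTop k] with n hn
        rw [Real.norm_eq_abs]
        exact (hyz n k hn).le
      have h4 := h3.add h2
      simpa using h4
  have h5 := hq.2 z (fun n => (hz n).1) hw
  obtain ⟨N, hN⟩ := Metric.tendsto_atTop.1 h5 ρ hρ
  exact ⟨z N, hz N, by rw [← dist_eq_norm]; exact hN N le_rfl, hz0 N⟩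

theorem countable_tiles {𝒯 : Set (Set H)} (hT : CTiling 𝒯) : 𝒯.Countable := by
  refine Set.PairwiseDisjoint.countable_of_isOpen (s := fun T : Set H => interior T) (a := 𝒯) ?_
    (fun T _ => isOpen_interior) (fun T hTT => hT.int T hTT)
  intro S hS T hTT hne
  exact hT.dis hS hTT hne

theorem pp_sing (hinf : ¬ FiniteDimensional ℝ H) {𝒯 : Set (Set H)} (hT : CTiling 𝒯) :
    closure (PP 𝒯) ⊆ {x | SingT 𝒯 x} := by
  refine (singT_closed 𝒯).closure_subset_iff.2 ?_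
  rintro x ⟨T, hTT, hx⟩
  exact sing_of_pc kmp hinf hT hTT hx.1 (hx.isPC (hT.bdd T hTT))

/-- The points of continuity of a tile that lie in no other tile are weakly dense in the tile. -/
theorem pc_alone {𝒯 : Set (Set H)} (hT : CTiling 𝒯) {T₀ : Set H} (h0 : T₀ ∈ 𝒯) {y : H}
    (hy : y ∈ T₀) (F : Finset H) {η : ℝ} (hη : 0 < η) :
    ∃ q, PCPt T₀ q ∧ (∀ T ∈ 𝒯, T ≠ T₀ → q ∉ T) ∧
      ∀ h ∈ F, |(inner ℝ h q : ℝ) - inner ℝ h y| < η := by
  have hcount : Countable {T // T ∈ 𝒯 ∧ T ≠ T₀} :=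
    ((countable_tiles hT).mono (fun T hTT => hTT.1)).to_subtype
  have hsep : ∀ T : {T // T ∈ 𝒯 ∧ T ≠ T₀}, ∃ (g : H) (β : ℝ), (∀ x ∈ (T : Set H), β ≤ inner ℝ g x) ∧
      ∀ x ∈ interior T₀, inner ℝ g x < β := by
    rintro ⟨T, hTT, hne⟩
    obtain ⟨f, β, hf1, hf2, hf3, hf4⟩ := sep hT h0 hTT hne.symm
    obtain ⟨g, rfl⟩ := (InnerProductSpace.toDual ℝ H).surjective f
    refine ⟨g, β, fun x hx => ?_, fun x hx => ?_⟩
    · have := hf2 x hx
      rwa [InnerProductSpace.toDual_apply_apply] at this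
    · have := hf3 x hx
      rwa [InnerProductSpace.toDual_apply_apply] at this
  choose g β hg1 hg2 using hsep
  obtain ⟨q, hq, hq1, hq2⟩ := pc_dense' (hT.closed T₀ h0) (hT.convex T₀ h0) (hT.bdd T₀ h0)
    (hT.int T₀ h0) g β hg2 hy F hη
  refine ⟨q, hq, fun T hTT hne hqT => ?_, hq2⟩
  have h1 := hg1 ⟨T, hTT, hne⟩ q hqT
  have h2 := hq1 ⟨T, hTT, hne⟩
  linarith

/-- Baire category in the closure of the points of continuity. -/
theorem baire {𝒯 : Set (Set H)} {ι : Type*} [Countable ι] (C : ι → Set H)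
    (hC : ∀ i, IsClosed (C i)) (hcov : closure (PP 𝒯) ⊆ ⋃ i, C i) {q₀ : H} (hq₀ : q₀ ∈ PP 𝒯)
    {ε : ℝ} (hε : 0 < ε) :
    ∃ i, ∃ q ∈ PP 𝒯, ‖q - q₀‖ < ε ∧ ∃ ρ > 0, ∀ x ∈ closure (PP 𝒯), ‖x - q‖ < ρ → x ∈ C i := by
  have : CompleteSpace (closure (PP 𝒯)) := isClosed_closure.completeSpace_coe
  have hd := dense_iUnion_interior_of_closed (X := closure (PP 𝒯))
    (f := fun i : ι => Subtype.val ⁻¹' (C i))
    (fun i => (hC i).preimage continuous_subtype_val) (by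
      rw [Set.eq_univ_iff_forall]
      rintro ⟨x, hx⟩
      obtain ⟨i, hi⟩ := mem_iUnion.1 (hcov hx)
      exact mem_iUnion.2 ⟨i, hi⟩)
  obtain ⟨⟨q, hq⟩, hqi, hqq⟩ := Metric.dense_iff.1 hd ⟨q₀, subset_closure hq₀⟩ (ε / 2)
    (by positivity)
  obtain ⟨i, hqi'⟩ := mem_iUnion.1 hqq
  rw [mem_interior_iff_mem_nhds, Metric.mem_nhds_iff] at hqi'
  obtain ⟨ρ, hρ, hρ'⟩ := hqi'
  have hqi1 : dist q q₀ < ε / 2 := hqi
  obtain ⟨q', hq', hqq'⟩ := Metric.mem_closure_iff.1 hq (min (ρ / 2) (ε / 2))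
    (lt_min (by positivity) (by positivity))
  have hqq1 := hqq'.trans_le (min_le_left _ _)
  have hqq2 := hqq'.trans_le (min_le_right _ _)
  refine ⟨i, q', hq', ?_, ρ / 2, by positivity, fun x hx hxq => ?_⟩
  · rw [← dist_eq_norm]
    rw [dist_comm] at hqq2
    linarith [dist_triangle q' q q₀]
  have h5 : (⟨x, hx⟩ : closure (PP 𝒯)) ∈ Metric.ball (⟨q, hq⟩ : closure (PP 𝒯)) ρ := by
    rw [mem_ball, Subtype.dist_eq]
    show dist x q < ρ
    rw [← dist_eq_norm] at hxq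
    rw [dist_comm] at hqq1
    linarith [dist_triangle x q' q]
  exact hρ' h5

/-- **Structure theorem.** -/
theorem structureThm {𝒯 : Set (Set H)} (hT : CTiling 𝒯)
    {q₀ : H} (hq₀ : ∃ T ∈ 𝒯, PCPt T q₀) {ε : ℝ} (hε : 0 < ε) :
    ∃ T₀ ∈ 𝒯, ∃ q, PCPt T₀ q ∧ ‖q - q₀‖ < ε ∧ ∃ ρ > 0,
      ∀ T ∈ 𝒯, T ≠ T₀ → ∀ y, PCPt T y → ρ ≤ ‖y - q‖ := by
  have : Countable 𝒯 := (countable_tiles hT).to_subtype
  obtain ⟨⟨T₀, hT₀⟩, q, ⟨T₁, hT₁, hq⟩, hqq₀, ρ, hρ, hball⟩ := baire (fun T : 𝒯 => (T : Set H))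
    (fun T => hT.closed T T.2) (by
      intro x _
      have h : x ∈ ⋃₀ 𝒯 := by rw [hT.cov]; trivial
      obtain ⟨T, hTT, hx⟩ := h
      exact mem_iUnion.2 ⟨⟨T, hTT⟩, hx⟩) hq₀ hε
  have key : ∀ T ∈ 𝒯, T ≠ T₀ → ∀ y, PCPt T y → ρ ≤ ‖y - q‖ := by
    intro T hTT hne y hy
    by_contra hlt
    push Not at hlt
    obtain ⟨z, hz, hzy, hz0⟩ := escape hT hT₀ hTT hne.symm hy (ρ := ρ - ‖y - q‖) (by linarith)
    refine hz0 (hball z (subset_closure ⟨T, hTT, hz⟩) ?_)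
    have := norm_sub_le_norm_sub_add_norm_sub z y q
    linarith
  have h10 : T₁ = T₀ := by
    by_contra hne
    have := key T₁ hT₁ hne q hq
    rw [sub_self, norm_zero] at this
    linarith
  subst h10
  exact ⟨T₁, hT₁, q, hq, hqq₀, ρ, hρ, key⟩

end Pool.Agent.H919.PC
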