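import Mathlib
import Pool.Agent.H919.PC.Main

/-!
# MP_3191e9_an, project PC: tilings by translates
-/

set_option autoImplicit false

open Metric Set Filter Topology

namespace Pool.Agent.H919.PC

universe u

section

variable {H : Type u} [NormedAddCommGroup H] [InnerProductSpace ℝ H]

/-- The translate `a + K`. -/
def tr (K : Set H) (a : H) : Set H := {x | x - a ∈ K}

/-- `K` is a bounded convex body. -/
def Body (K : Set H) : Prop :=
  IsClosed K ∧ Convex ℝ K ∧ Bornology.IsBounded K ∧ (interior K).Nonempty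

/-- The translates `a + K`, `a ∈ A`, are a tiling. -/
def TrTiling (K A : Set H) : Prop :=
  (∀ x, ∃ a ∈ A, x ∈ tr K a) ∧
    ∀ a ∈ A, ∀ b ∈ A, a ≠ b → Disjoint (interior (tr K a)) (interior (tr K b))

theorem tr_eq (K : Set H) (a : H) : tr K a = (fun x => x - a) ⁻¹' K := rfl

theorem interior_tr (K : Set H) (a : H) : interior (tr K a) = tr (interior K) a := by
  have h := (Homeomorph.subRight a).preimage_interior K
  rw [tr_eq, tr_eq]
  exact h.symm

theorem convex_tr {K : Set H} (hK : Convex ℝ K) (a : H) : Convex ℝ (tr K a) := by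
  intro x hx y hy s t hs ht hst
  show s • x + t • y - a ∈ K
  have h : s • x + t • y - a = s • (x - a) + t • (y - a) := by
    rw [smul_sub, smul_sub]
    have : a = s • a + t • a := by rw [← add_smul, hst, one_smul]
    nth_rewrite 1 [this]
    abel
  rw [h]
  exact hK hx hy hs ht hst

theorem tr_bdd {K : Set H} (hK : Bornology.IsBounded K) (a : H) : Bornology.IsBounded (tr K a) := by
  obtain ⟨R, hR⟩ := (Metric.isBounded_iff_subset_closedBall (0 : H)).1 hK
  refine (Metric.isBounded_iff_subset_closedBall a).2 ⟨R, fun x hx => ?_⟩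
  have := hR (show x - a ∈ K from hx)
  rw [mem_closedBall, dist_zero_right] at this
  rw [mem_closedBall, dist_eq_norm]
  exact this

theorem tr_closed {K : Set H} (hK : IsClosed K) (a : H) : IsClosed (tr K a) :=
  hK.preimage (continuous_id.sub continuous_const)

theorem tr_int {K : Set H} (hK : (interior K).Nonempty) (a : H) : (interior (tr K a)).Nonempty := by
  obtain ⟨x, hx⟩ := hK
  rw [interior_tr]
  exact ⟨x + a, by show x + a - a ∈ interior K; rwa [add_sub_cancel_right]⟩

theorem TrTiling.toC {K A : Set H} (hK : Body K) (h : TrTiling K A) : CTiling (tr K '' A) where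
  closed := by rintro _ ⟨a, -, rfl⟩; exact tr_closed hK.1 a
  convex := by rintro _ ⟨a, -, rfl⟩; exact convex_tr hK.2.1 a
  bdd := by rintro _ ⟨a, -, rfl⟩; exact tr_bdd hK.2.2.1 a
  int := by rintro _ ⟨a, -, rfl⟩; exact tr_int hK.2.2.2 a
  cov := by
    rw [Set.eq_univ_iff_forall]
    intro x
    obtain ⟨a, ha, hx⟩ := h.1 x
    exact ⟨tr K a, ⟨a, ha, rfl⟩, hx⟩
  dis := by
    rintro _ ⟨a, ha, rfl⟩ _ ⟨b, hb, rfl⟩ hne
    exact h.2 a ha b hb fun e => hne (by rw [e])

/-- the centres are separated -/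
theorem TrTiling.sep {K A : Set H} (hK : Body K) (h : TrTiling K A) :
    ∃ δ > 0, ∀ a ∈ A, ∀ b ∈ A, a ≠ b → δ ≤ ‖a - b‖ := by
  obtain ⟨k, hk⟩ := hK.2.2.2
  obtain ⟨δ, hδ, hb⟩ := Metric.isOpen_iff.1 isOpen_interior k hk
  refine ⟨δ, hδ, fun a ha b hb' hne => ?_⟩
  by_contra hlt
  push Not at hlt
  have h1 : a + k ∈ interior (tr K a) := by
    rw [interior_tr]
    show a + k - a ∈ interior K
    rwa [add_sub_cancel_left]
  have h2 : a + k ∈ interior (tr K b) := by
    rw [interior_tr]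
    show a + k - b ∈ interior K
    refine hb ?_
    rw [mem_ball, dist_eq_norm]
    have : a + k - b - k = a - b := by abel
    rwa [this]
  exact Set.disjoint_left.1 (h.2 a ha b hb' hne) h1 h2

/-- Distinct centres give distinct tiles. -/
theorem TrTiling.inj {K A : Set H} (hK : Body K) (h : TrTiling K A) {a b : H} (ha : a ∈ A)
    (hb : b ∈ A) (hab : tr K a = tr K b) : a = b := by
  by_contra hne
  have h1 := h.2 a ha b hb hne
  rw [hab, disjoint_self] at h1
  obtain ⟨x, hx⟩ := tr_int hK.2.2.2 b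
  rw [h1] at hx
  exact hx

end

variable {H : Type u} [NormedAddCommGroup H] [InnerProductSpace ℝ H] [CompleteSpace H]

omit [CompleteSpace H] in
theorem pc_tr {K : Set H} {q : H} (hq : PCPt K q) (a : H) : PCPt (tr K a) (a + q) := by
  refine ⟨by show a + q - a ∈ K; rw [add_sub_cancel_left]; exact hq.1, fun u hu hw => ?_⟩
  have h1 : WeakTo (fun n => u n - a) q := by
    have h2 := hw.sub (WeakTo.of_tendsto (tendsto_const_nhds : Tendsto (fun _ : ℕ => a) atTop (𝓝 a)))
    rwa [add_sub_cancel_left] at h2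
  have h3 := (hq.2 _ hu h1).const_add a
  simpa using h3

/-- **Weak limits of centres.** -/
theorem no_limit {K A : Set H} (hK : Body K) (h : TrTiling K A) {a q : H} (ha : a ∈ A)
    (hq : PCPt (tr K a) q) (hq2 : ∀ b ∈ A, b ≠ a → q ∉ tr K b) {b x : ℕ → H}
    (hb : Function.Injective b) (hbx : ∀ n, b n ∈ A ∧ x n - b n ∈ K)
    (hx : Tendsto x atTop (𝓝 q)) {c : H} (hw : WeakTo b c) : c ∉ A := by
  intro hc
  have h0 : q ∈ tr K c :=
    mem_of_weakTo hK.1 hK.2.1 (fun n => (hbx n).2) ((WeakTo.of_tendsto hx).sub hw)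
  have hca : c = a := by
    by_contra hne
    exact hq2 c hc hne h0
  subst hca
  obtain ⟨δ, hδ, hsep⟩ := h.sep hK
  have h1 : WeakTo (fun n => x n - b n + c) q := by
    have h2 := ((WeakTo.of_tendsto hx).sub hw).add
      (WeakTo.of_tendsto (tendsto_const_nhds : Tendsto (fun _ : ℕ => c) atTop (𝓝 c)))
    rwa [sub_add_cancel] at h2
  have h2 := hq.2 _ (fun n => by
    show x n - b n + c - c ∈ K
    rw [add_sub_cancel_right]
    exact (hbx n).2) h1
  have h3 : Tendsto (fun n => x n - (x n - b n + c)) atTop (𝓝 (q - q)) := hx.sub h2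
  rw [sub_self] at h3
  obtain ⟨N, hN⟩ := Metric.tendsto_atTop.1 h3 δ hδ
  obtain ⟨n, hn, hne⟩ : ∃ n, N ≤ n ∧ b n ≠ c := by
    by_cases h4 : b N = c
    · refine ⟨N + 1, Nat.le_succ N, fun e => ?_⟩
      have := hb (e.trans h4.symm)
      omega
    · exact ⟨N, le_rfl, h4⟩
  have h4 := hN n hn
  have h5 : x n - (x n - b n + c) = b n - c := by abel
  rw [dist_zero_right, h5] at h4
  linarith [hsep (b n) (hbx n).1 c hc hne]

variable [TopologicalSpace.SeparableSpace H]

/-- a sequence of distinct centres whose tiles approach a singular point -/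
theorem exists_seq {K A : Set H} (_h : TrTiling K A) {q : H} (hq : SingT (tr K '' A) q) :
    ∃ b x : ℕ → H, Function.Injective b ∧ (∀ n, b n ∈ A ∧ x n - b n ∈ K) ∧
      Tendsto x atTop (𝓝 q) := by
  classical
  obtain ⟨f, hf1, hf2⟩ := exists_seq_of_forall_finset_exists
    (fun p : ℕ × H × H => p.2.1 ∈ A ∧ p.2.2 - p.2.1 ∈ K ∧ ‖p.2.2 - q‖ < 1 / ((p.1 : ℝ) + 1))
    (fun p p' => p.1 < p'.1 ∧ p.2.1 ≠ p'.2.1) (by
      intro s _
      obtain ⟨m, hm⟩ : ∃ m : ℕ, ∀ p ∈ s, p.1 < m := by
        refine ⟨s.sup (fun p => p.1) + 1, fun p hp => ?_⟩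
        have h0 : p.1 ≤ s.sup (fun p : ℕ × H × H => p.1) :=
          Finset.le_sup (f := fun p : ℕ × H × H => p.1) hp
        omega
      have hinf := hq (1 / ((m : ℝ) + 1)) (by positivity)
      obtain ⟨T, ⟨⟨b, hb, rfl⟩, x, hx, hxq⟩, hTs⟩ := hinf.exists_notMem_finset
        (s.image fun p => tr K p.2.1)
      rw [mem_ball, dist_eq_norm] at hxq
      refine ⟨(m, b, x), ⟨hb, hx, hxq⟩, fun p hp => ⟨hm p hp, fun e => hTs ?_⟩⟩
      have e' : p.2.1 = b := e
      rw [← e']
      exact Finset.mem_image_of_mem _ hp)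
  refine ⟨fun n => (f n).2.1, fun n => (f n).2.2, ?_, fun n => ⟨(hf1 n).1, (hf1 n).2.1⟩, ?_⟩
  · intro m n hmn
    rcases lt_trichotomy m n with h1 | h1 | h1
    · exact absurd hmn (hf2 m n h1).2
    · exact h1
    · exact absurd hmn.symm (hf2 n m h1).2
  · have hmono : ∀ n, n ≤ (f n).1 := by
      intro n
      induction n with
      | zero => exact Nat.zero_le _
      | succ n ih => exact lt_of_le_of_lt ih (hf2 n (n + 1) (Nat.lt_succ_self n)).1
    rw [tendsto_iff_norm_sub_tendsto_zero]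
    refine squeeze_zero (fun n => norm_nonneg _) (fun n => ?_)
      tendsto_one_div_add_atTop_nhds_zero_nat
    refine (hf1 n).2.2.le.trans (one_div_le_one_div_of_le (by positivity) ?_)
    have : (n : ℝ) ≤ (f n).1 := by exact_mod_cast hmono n
    linarith

/-- the sequences of centres approaching a point have weakly convergent subsequences -/
theorem exists_limit {K : Set H} (hK : Body K) {q : H} {b x : ℕ → H}
    (hbx : ∀ n, x n - b n ∈ K) (hx : Tendsto x atTop (𝓝 q)) :
    ∃ (a : H) (φ : ℕ → ℕ), StrictMono φ ∧ WeakTo (b ∘ φ) a := by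
  obtain ⟨R, hR⟩ := (Metric.isBounded_iff_subset_closedBall (0 : H)).1 hK.2.2.1
  obtain ⟨R', hR'⟩ := (Metric.isBounded_iff_subset_closedBall (0 : H)).1
    (Metric.isBounded_range_of_tendsto x hx)
  refine exists_weakTo (R := R' + R) fun n => ?_
  have h1 := hR (hbx n)
  have h2 := hR' (mem_range_self n)
  rw [mem_closedBall, dist_zero_right] at h1 h2
  have h3 : b n = x n - (x n - b n) := by abel
  rw [h3]
  have h5 := norm_sub_le (x n) (x n - b n)
  linarith

/-- Each point of continuity of a tile is approached by tiles with distinct centres. -/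
theorem approach (hinf : ¬ FiniteDimensional ℝ H) {K A : Set H} (hK : Body K)
    (h : TrTiling K A) {a q : H} (ha : a ∈ A) (hq : PCPt (tr K a) q) :
    ∃ b x : ℕ → H, Function.Injective b ∧ (∀ n, b n ∈ A ∧ x n - b n ∈ K) ∧
      Tendsto x atTop (𝓝 q) ∧ ∃ c, WeakTo b c := by
  have hT := h.toC hK
  have hs : SingT (tr K '' A) q :=
    sing_of_pc kmp hinf hT ⟨a, ha, rfl⟩ hq.1 (hq.isPC (tr_bdd hK.2.2.1 a))
  obtain ⟨b, x, hb, hbx, hx⟩ := exists_seq h hs
  obtain ⟨c, φ, hφ, hw⟩ := exists_limit hK (fun n => (hbx n).2) hx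
  exact ⟨b ∘ φ, x ∘ φ, hb.comp hφ.injective, fun n => hbx (φ n), hx.comp hφ.tendsto_atTop, c, hw⟩

end Pool.Agent.H919.PC
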